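import Mathlib
import Pool.Agent.NH58.Circle

set_option autoImplicit false

/-!
# A compact interval has no `C^k` detecting group

Every group that acts faithfully by `C^k` diffeomorphisms on the interval `[-1, 1]` also acts
faithfully by `C^k` diffeomorphisms on the circle (`k ≥ 1`, `k = ∞` allowed): lift the action along
the fold `x ↦ cos x` from the circle to the interval.  If `g` is a `C^k` diffeomorphism of `[-1, 1]`
then `sin (lift x) = sign (sin x) * sqrt (1 - g (cos x) ^ 2)`, and the signed square root of a
function with nondegenerate double zeros, whose derivative is `sin` times a `C^(k-1)` function, is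
of class `C^k`.  So no group at all detects the interval.
-/

open scoped Manifold ContDiff

universe u

namespace Pool.Agent.Results.MP_c1d873_al.IntervalNoGroup

/-- The group `G` acts faithfully by `C^k` diffeomorphisms on the `n`-dimensional manifold `N` (with
or without boundary, modelled on the half-space): there is an injective homomorphism from `G` to the
permutations of `N` all of whose values are of class `C^k` (the inverses then are so, too). -/
def ActsFaithfully (k : ℕ∞) (n : ℕ) [NeZero n] (G : Type u) [Group G] (N : Type)
    [TopologicalSpace N] [ChartedSpace (EuclideanHalfSpace n) N] : Prop :=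
  ∃ ρ : G →* Equiv.Perm N, Function.Injective ρ ∧
    ∀ g : G, ContMDiff (𝓡∂ n) (𝓡∂ n) (k : WithTop ℕ∞) (ρ g)

/-- `G` is a `C^k` detecting group for the `n`-dimensional manifold `M`: for every compact connected
smooth `n`-dimensional manifold `N` (with or without boundary), `G` acts faithfully by `C^k`
diffeomorphisms on `N` if and only if `N` is `C^k`-diffeomorphic to `M`. -/
def IsDetecting (k : ℕ∞) (n : ℕ) [NeZero n] (G : Type u) [Group G] (M : Type)
    [TopologicalSpace M] [ChartedSpace (EuclideanHalfSpace n) M] : Prop :=
  ∀ (N : Type) [TopologicalSpace N] [T2Space N] [CompactSpace N] [ConnectedSpace N]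
    [ChartedSpace (EuclideanHalfSpace n) N] [IsManifold (𝓡∂ n) ∞ N],
    ActsFaithfully k n G N ↔ Nonempty (Diffeomorph (𝓡∂ n) (𝓡∂ n) M N (k : WithTop ℕ∞))

/-- For every regularity `k ≥ 1` (`k = ∞` allowed) the compact connected smooth one-dimensional
manifold with boundary `[-1, 1]` has no `C^k` detecting group at all: neither a finitely generated
one, nor a countable one, nor any other. -/
theorem result (k : ℕ∞) (hk : 1 ≤ k) :
    CompactSpace (Set.Icc (-1 : ℝ) 1) ∧ ConnectedSpace (Set.Icc (-1 : ℝ) 1) ∧
      IsManifold (𝓡∂ 1) ∞ (Set.Icc (-1 : ℝ) 1) ∧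
      ∀ (G : Type u) [Group G], ¬ IsDetecting k 1 G (Set.Icc (-1 : ℝ) 1) :=
  ⟨inferInstance, inferInstance, inferInstance, fun G _ h =>
    Pool.Agent.NH58.Fold.interval_no_detecting k hk G h⟩

end Pool.Agent.Results.MP_c1d873_al.IntervalNoGroup
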